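import Pool.Agent.W998.KG.Stm3

set_option autoImplicit false

namespace Pool.Agent.W384.KG.MOR

open Pool.Agent.Results.MP_633d19_co.SmallDegree
open Pool.Agent.Results.MP_633d19_co.SmallDegree.MGraph

variable {V E : Type}

/-- indices joined by an edge -/
def R (G : MGraph V E) (y : ℕ → V) (i j : ℕ) : Prop := ∃ e, G.ends e = s(y i, y j)

lemma R.symm {G : MGraph V E} {y : ℕ → V} {i j : ℕ} (h : R G y i j) : R G y j i := by
  obtain ⟨e, he⟩ := h
  exact ⟨e, by rw [he, Sym2.eq_swap]⟩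

lemma R.ne {G : MGraph V E} {y : ℕ → V} {i j : ℕ} (h : R G y i j) : i ≠ j := by
  rintro rfl
  obtain ⟨e, he⟩ := h
  exact G.loopless e (by rw [he]; simp)

lemma cyc {G : MGraph V E} {n : ℕ} {y : ℕ → V} (hinj : ∀ i ≤ n, ∀ j ≤ n, y i = y j → i = j)
    {l : ℕ} (f : ℕ → ℕ) (hle : ∀ t < l, f t ≤ n) (hf : ∀ s < l, ∀ t < l, f s = f t → s = t)
    (hR : ∀ t < l, R G y (f t) (f ((t + 1) % l))) : G.HasCycle l :=
  ⟨fun t => y (f t), fun s hs t ht h => hf s hs t ht (hinj _ (hle s hs) _ (hle t ht) h), hR⟩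

lemma cyc3 {G : MGraph V E} {n : ℕ} {y : ℕ → V} (hinj : ∀ i ≤ n, ∀ j ≤ n, y i = y j → i = j)
    {a b c : ℕ} (ha : a ≤ n) (hb : b ≤ n) (hc : c ≤ n)
    (h1 : R G y a b) (h2 : R G y b c) (h3 : R G y c a) : G.HasCycle 3 := by
  have := h1.ne
  have := h2.ne
  have := h3.ne
  refine cyc hinj (fun t => if t = 0 then a else if t = 1 then b else c) ?_ ?_ ?_
  · intro t ht
    split_ifs <;> assumption
  · intro s hs t ht h
    split_ifs at h <;> omega
  · intro t ht
    interval_cases t <;> simpa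

lemma cyc4 {G : MGraph V E} {n : ℕ} {y : ℕ → V} (hinj : ∀ i ≤ n, ∀ j ≤ n, y i = y j → i = j)
    {a b c d : ℕ} (ha : a ≤ n) (hb : b ≤ n) (hc : c ≤ n) (hd : d ≤ n) (hac : a ≠ c) (hbd : b ≠ d)
    (h1 : R G y a b) (h2 : R G y b c) (h3 : R G y c d) (h4 : R G y d a) : G.HasCycle 4 := by
  have := h1.ne
  have := h2.ne
  have := h3.ne
  have := h4.ne
  refine cyc hinj (fun t => if t = 0 then a else if t = 1 then b else if t = 2 then c else d)
    ?_ ?_ ?_
  · intro t ht
    split_ifs <;> assumption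
  · intro s hs t ht h
    split_ifs at h <;> omega
  · intro t ht
    interval_cases t <;> simpa

lemma cyc5 {G : MGraph V E} {n : ℕ} {y : ℕ → V} (hinj : ∀ i ≤ n, ∀ j ≤ n, y i = y j → i = j)
    {a b c d e : ℕ} (ha : a ≤ n) (hb : b ≤ n) (hc : c ≤ n) (hd : d ≤ n) (he : e ≤ n)
    (hac : a ≠ c) (had : a ≠ d) (hbd : b ≠ d) (hbe : b ≠ e) (hce : c ≠ e)
    (h1 : R G y a b) (h2 : R G y b c) (h3 : R G y c d) (h4 : R G y d e) (h5 : R G y e a) :
    G.HasCycle 5 := by
  have := h1.ne
  have := h2.ne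
  have := h3.ne
  have := h4.ne
  have := h5.ne
  refine cyc hinj (fun t => if t = 0 then a else if t = 1 then b else if t = 2 then c
    else if t = 3 then d else e) ?_ ?_ ?_
  · intro t ht
    split_ifs <;> assumption
  · intro s hs t ht h
    split_ifs at h <;> omega
  · intro t ht
    interval_cases t <;> simpa

/-- the ball of radius two around `a`, first steps in `P` -/
def T (A : ℕ → Finset ℕ) (a : ℕ) (P : Finset ℕ) : Finset ℕ :=
  insert a (P ∪ P.biUnion (fun x => (A x).erase a))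

lemma card_T {G : MGraph V E} {n d : ℕ} {y : ℕ → V}
    (hinj : ∀ i ≤ n, ∀ j ≤ n, y i = y j → i = j) {A : ℕ → Finset ℕ}
    (hA : ∀ i ≤ n, (∀ j ∈ A i, j ≤ n ∧ R G y i j) ∧ (A i).card = d)
    (n3 : ¬ G.HasCycle 3) (n4 : ¬ G.HasCycle 4) {a : ℕ} (ha : a ≤ n) {P : Finset ℕ}
    (hP : P ⊆ A a) : 1 + P.card + P.card * (d - 1) ≤ (T A a P).card := by
  have hPn : ∀ x ∈ P, x ≤ n ∧ R G y a x := fun x hx => (hA a ha).1 x (hP hx)
  have haP : a ∉ P := fun h => (hPn a h).2.ne rfl
  have hab : a ∉ P.biUnion (fun x => (A x).erase a) := by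
    simp
  have hd1 : Disjoint P (P.biUnion (fun x => (A x).erase a)) := by
    rw [Finset.disjoint_left]
    intro z hz hz'
    rw [Finset.mem_biUnion] at hz'
    obtain ⟨x, hx, hzx⟩ := hz'
    have hzx' := Finset.mem_of_mem_erase hzx
    have h1 := hPn x hx
    have h2 := hPn z hz
    have h3 := (hA x h1.1).1 z hzx'
    exact n3 (cyc3 hinj ha h1.1 h2.1 h1.2 h3.2 h2.2.symm)
  have hd2 : (P : Set ℕ).PairwiseDisjoint (fun x => (A x).erase a) := by
    intro x hx x' hx' hne
    rw [Function.onFun, Finset.disjoint_left]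
    intro z hz hz'
    have h1 := hPn x hx
    have h2 := hPn x' hx'
    have h3 := (hA x h1.1).1 z (Finset.mem_of_mem_erase hz)
    have h4 := (hA x' h2.1).1 z (Finset.mem_of_mem_erase hz')
    exact n4 (cyc4 hinj ha h1.1 h3.1 h2.1 (Finset.ne_of_mem_erase hz).symm hne h1.2 h3.2
      h4.2.symm h2.2.symm)
  have hc : P.card * (d - 1) ≤ (P.biUnion (fun x => (A x).erase a)).card := by
    rw [Finset.card_biUnion hd2]
    refine (le_of_eq ?_).trans (Finset.sum_le_sum (f := fun _ => d - 1) ?_)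
    · simp
    · intro x hx
      have h1 := (hA x (hPn x hx).1).2
      have h2 := Finset.pred_card_le_card_erase (s := A x) (a := a)
      omega
  unfold T
  rw [Finset.card_insert_of_notMem (by simp [haP]), Finset.card_union_of_disjoint hd1]
  omega

lemma T_sub {G : MGraph V E} {n d : ℕ} {y : ℕ → V} {A : ℕ → Finset ℕ}
    (hA : ∀ i ≤ n, (∀ j ∈ A i, j ≤ n ∧ R G y i j) ∧ (A i).card = d)
    {a : ℕ} (ha : a ≤ n) {P : Finset ℕ} (hP : P ⊆ A a) : T A a P ⊆ Finset.range (n + 1) := by
  intro z hz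
  unfold T at hz
  rw [Finset.mem_insert, Finset.mem_union, Finset.mem_biUnion] at hz
  rw [Finset.mem_range]
  rcases hz with rfl | hz | ⟨x, hx, hz⟩
  · omega
  · have := ((hA a ha).1 z (hP hz)).1
    omega
  · have h1 := ((hA a ha).1 x (hP hx)).1
    have := ((hA x h1).1 z (Finset.mem_of_mem_erase hz)).1
    omega

theorem main : Pool.Agent.W998.KG.PartMOR := by
  intro V E G n d y hinj hN
  have hex : ∀ i, ∃ A : Finset ℕ, i ≤ n → ((∀ j ∈ A, j ≤ n ∧ R G y i j) ∧ A.card = d) := by
    intro i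
    by_cases hi : i ≤ n
    · obtain ⟨A, h1, h2⟩ := hN i hi
      obtain ⟨B, hB, hB2⟩ := Finset.exists_subset_card_eq h2
      exact ⟨B, fun _ => ⟨fun j hj => h1 j (hB hj), hB2⟩⟩
    · exact ⟨∅, fun h => absurd h hi⟩
  choose A hA using hex
  constructor
  · intro hg
    have n3 : ¬ G.HasCycle 3 := fun h => by have := hg 3 le_rfl h; omega
    have n4 : ¬ G.HasCycle 4 := fun h => by have := hg 4 (by norm_num) h; omega
    have h1 := card_T hinj hA n3 n4 (Nat.zero_le n) (P := A 0) (Finset.Subset.refl _)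
    have h2 := Finset.card_le_card (T_sub hA (Nat.zero_le n) (P := A 0) (Finset.Subset.refl _))
    rw [(hA 0 (Nat.zero_le n)).2] at h1
    rw [Finset.card_range] at h2
    rcases Nat.eq_zero_or_pos d with rfl | hd
    · omega
    · obtain ⟨e, rfl⟩ : ∃ e, d = e + 1 := ⟨d - 1, by omega⟩
      simp only [Nat.add_sub_cancel] at h1
      nlinarith
  · intro hd hg
    have n3 : ¬ G.HasCycle 3 := fun h => by have := hg 3 le_rfl h; omega
    have n4 : ¬ G.HasCycle 4 := fun h => by have := hg 4 (by norm_num) h; omega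
    have n5 : ¬ G.HasCycle 5 := fun h => by have := hg 5 (by norm_num) h; omega
    obtain ⟨b, hb⟩ : (A 0).Nonempty := by
      rw [← Finset.card_pos, (hA 0 (Nat.zero_le n)).2]
      omega
    have hbn := (hA 0 (Nat.zero_le n)).1 b hb
    have hab := hbn.2
    have h0 : (0 : ℕ) ≤ n := Nat.zero_le n
    have key : Disjoint (T A 0 ((A 0).erase b)) (T A b ((A b).erase 0)) := by
      rw [Finset.disjoint_left]
      intro z hz hz'
      unfold T at hz hz'
      rw [Finset.mem_insert, Finset.mem_union, Finset.mem_biUnion] at hz hz'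
      rcases hz with rfl | hz | ⟨x, hx, hz⟩
      · rcases hz' with h | h | ⟨x', hx', h⟩
        · exact hab.ne h
        · exact (Finset.ne_of_mem_erase h) rfl
        · have h1 := (hA b hbn.1).1 x' (Finset.mem_of_mem_erase hx')
          have h2 := (hA x' h1.1).1 0 (Finset.mem_of_mem_erase h)
          exact n3 (cyc3 hinj h0 hbn.1 h1.1 hab h1.2 h2.2)
      · have h3 := (hA 0 h0).1 z (Finset.mem_of_mem_erase hz)
        have h4 := Finset.ne_of_mem_erase hz
        rcases hz' with h | h | ⟨x', hx', h⟩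
        · exact h4 h
        · have h1 := (hA b hbn.1).1 z (Finset.mem_of_mem_erase h)
          exact n3 (cyc3 hinj h0 hbn.1 h3.1 hab h1.2 h3.2.symm)
        · have h1 := (hA b hbn.1).1 x' (Finset.mem_of_mem_erase hx')
          have h2 := (hA x' h1.1).1 z (Finset.mem_of_mem_erase h)
          exact n4 (cyc4 hinj h0 hbn.1 h1.1 h3.1 (Finset.ne_of_mem_erase hx').symm h4.symm
            hab h1.2 h2.2 h3.2.symm)
      · have h3 := (hA 0 h0).1 x (Finset.mem_of_mem_erase hx)
        have h4 := Finset.ne_of_mem_erase hx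
        have h5 := (hA x h3.1).1 z (Finset.mem_of_mem_erase hz)
        have h6 := Finset.ne_of_mem_erase hz
        rcases hz' with h | h | ⟨x', hx', h⟩
        · subst h
          exact n3 (cyc3 hinj h0 hbn.1 h3.1 hab h5.2.symm h3.2.symm)
        · have h1 := (hA b hbn.1).1 z (Finset.mem_of_mem_erase h)
          exact n4 (cyc4 hinj h0 hbn.1 h1.1 h3.1 h6.symm h4.symm
            hab h1.2 h5.2.symm h3.2.symm)
        · have h1 := (hA b hbn.1).1 x' (Finset.mem_of_mem_erase hx')
          have h2 := (hA x' h1.1).1 z (Finset.mem_of_mem_erase h)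
          have h7 := Finset.ne_of_mem_erase hx'
          have h8 := Finset.ne_of_mem_erase h
          by_cases hxx : x = x'
          · subst hxx
            exact n3 (cyc3 hinj h0 hbn.1 h3.1 hab h1.2 h3.2.symm)
          · exact n5 (cyc5 hinj h0 hbn.1 h1.1 h2.1 h3.1 h7.symm h6.symm h8.symm h4.symm
              (fun hh => hxx hh.symm) hab h1.2 h2.2 h5.2.symm h3.2.symm)
    have c1 := card_T hinj hA n3 n4 h0 (P := (A 0).erase b) (Finset.erase_subset _ _)
    have c2 := card_T hinj hA n3 n4 hbn.1 (P := (A b).erase 0) (Finset.erase_subset _ _)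
    have s1 := T_sub hA h0 (P := (A 0).erase b) (Finset.erase_subset _ _)
    have s2 := T_sub hA hbn.1 (P := (A b).erase 0) (Finset.erase_subset _ _)
    have c3 := Finset.card_le_card (Finset.union_subset s1 s2)
    rw [Finset.card_union_of_disjoint key, Finset.card_range] at c3
    have e1 := Finset.pred_card_le_card_erase (s := A 0) (a := b)
    have e2 := Finset.pred_card_le_card_erase (s := A b) (a := 0)
    rw [(hA 0 h0).2] at e1
    rw [(hA b hbn.1).2] at e2
    have f1 := Nat.mul_le_mul_right (d - 1) e1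
    have f2 := Nat.mul_le_mul_right (d - 1) e2
    obtain ⟨e, rfl⟩ : ∃ e, d = e + 1 := ⟨d - 1, by omega⟩
    simp only [Nat.add_sub_cancel] at *
    nlinarith

end Pool.Agent.W384.KG.MOR
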